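import Mathlib
import Pool.Agent.Helper149.TFDW

set_option autoImplicit false

open MeasureTheory Filter Topology Set
open scoped ENNReal NNReal ContDiff

namespace Pool.Agent.Y24.TF

open Pool.Agent.Helper149.TFDW

/-- Regularised Coulomb inequality for smooth functions, with a free parameter `t`. -/
lemma smooth_coul (w : R3 → ℝ) (hw : ContDiff ℝ 1 w) (hw0 : ∀ x, 0 ≤ w x)
    (h2 : Integrable (fun x => w x ^ 2)) (hg : Integrable (fun x => ‖fderiv ℝ w x‖ ^ 2))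
    (a : R3) (δ : ℝ) (hδ : 0 < δ) (t : ℝ) (ht : 0 < t) :
    ∫ x, 2 * w x ^ 2 / √(‖x - a‖ ^ 2 + δ ^ 2)
      ≤ t * (∫ x, w x ^ 2) + t⁻¹ * ∫ x, ‖fderiv ℝ w x‖ ^ 2 := by
  have hF : ContDiff ℝ 1 (fun x => w x ^ 2) := hw.pow 2
  have hder : ∀ x, ‖fderiv ℝ (fun x => w x ^ 2) x‖ = 2 * w x * ‖fderiv ℝ w x‖ := by
    intro x
    have h1 : HasFDerivAt (fun x => w x ^ 2) ((2 * w x) • fderiv ℝ w x) x := by
      have := ((hw.differentiable (by simp)) x).hasFDerivAt.pow 2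
      refine this.congr_fderiv ?_
      ext v
      simp
    rw [h1.fderiv, norm_smul, Real.norm_of_nonneg (by have := hw0 x; positivity)]
  have hpt : ∀ x, 2 * w x * ‖fderiv ℝ w x‖ ≤ t * w x ^ 2 + t⁻¹ * ‖fderiv ℝ w x‖ ^ 2 := by
    intro x
    have h1 : 0 ≤ t⁻¹ * (t * w x - ‖fderiv ℝ w x‖) ^ 2 := by positivity
    have h3 : t⁻¹ * (t * w x - ‖fderiv ℝ w x‖) ^ 2
        = t * w x ^ 2 - 2 * w x * ‖fderiv ℝ w x‖ + t⁻¹ * ‖fderiv ℝ w x‖ ^ 2 := by
      field_simp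
      ring
    linarith
  have hI : Integrable (fun x => t * w x ^ 2 + t⁻¹ * ‖fderiv ℝ w x‖ ^ 2) :=
    (h2.const_mul t).add (hg.const_mul _)
  have hF' : Integrable (fun x => ‖fderiv ℝ (fun x => w x ^ 2) x‖) := by
    refine hI.mono' ?_ (ae_of_all _ fun x => ?_)
    · exact (hF.continuous_fderiv (by simp)).norm.aestronglyMeasurable
    · rw [norm_norm, hder x]
      exact hpt x
  have h4 := Pool.Agent.Helper149.Hardy.hardyL1 _ hF (fun x => sq_nonneg _) h2 hF' a δ hδ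
  refine h4.trans ?_
  have h5 : ∫ x, ‖fderiv ℝ (fun x => w x ^ 2) x‖
      ≤ ∫ x, (t * w x ^ 2 + t⁻¹ * ‖fderiv ℝ w x‖ ^ 2) := by
    refine integral_mono hF' hI fun x => ?_
    show ‖fderiv ℝ (fun x => w x ^ 2) x‖ ≤ _
    rw [hder x]
    exact hpt x
  rw [integral_add (h2.const_mul t) (hg.const_mul _), integral_const_mul, integral_const_mul] at h5
  exact h5

/-- The Coulomb inequality `2∫ρ/|x-a| ≤ t∫ρ + t⁻¹∫|∇√ρ|²` for admissible densities. -/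
theorem coul {p : ℝ} (hp : 4 / 3 < p) {ρ : R3 → ℝ} {g : R3 → R3} (h : Admissible p ρ g)
    (a : R3) :
    Integrable (fun x => ρ x / ‖x - a‖) ∧
    ∀ t : ℝ, 0 < t → 2 * ∫ x, ρ x / ‖x - a‖ ≤ t * (∫ x, ρ x) + t⁻¹ * ∫ x, ‖g x‖ ^ 2 := by
  obtain ⟨hg2, -, w, hws, hw0, hwlim, hw2, -, -, hwgrad⟩ := approx hp h
  let δ : ℕ → ℝ := fun n => 1 / ((n:ℝ) + 1)
  have hδ : ∀ n, 0 < δ n := fun n => by positivity
  have hδlim : Tendsto δ atTop (𝓝 0) := tendsto_one_div_add_atTop_nhds_zero_nat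
  have hmain : ∀ t : ℝ, 0 < t → Integrable (fun x => 2 * (ρ x / ‖x - a‖)) ∧
      ∫ x, 2 * (ρ x / ‖x - a‖) ≤ t * (∫ x, ρ x) + t⁻¹ * ∫ x, ‖g x‖ ^ 2 := by
    intro t ht
    refine Pool.Agent.Helper149.Fatou.fatou_real (μ := (volume : Measure R3))
      (fun n x => 2 * w n x ^ 2 / √(‖x - a‖ ^ 2 + δ n ^ 2)) _ _ ?_ ?_ ?_ ?_
    · intro n x
      positivity
    · intro n
      exact Pool.Agent.Helper149.Hardy.integrable_div_sqrt ((hw2 n).1.const_mul 2) a (δ n) (hδ n)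
    · intro n
      have h1 := smooth_coul (w n) ((hws n).of_le (by simp)) (hw0 n) (hw2 n).1 (hwgrad n).1 a
        (δ n) (hδ n) t ht
      have h2 := mul_le_mul_of_nonneg_left (hw2 n).2 ht.le
      have h3 := mul_le_mul_of_nonneg_left (hwgrad n).2 (inv_pos.mpr ht).le
      linarith
    · have hne : ∀ᵐ x : R3, x ≠ a := by
        rw [ae_iff]
        simp
      filter_upwards [hwlim, hne] with x hx hxa
      have hxa' : 0 < ‖x - a‖ := norm_pos_iff.mpr (sub_ne_zero.mpr hxa)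
      have h2 : Tendsto (fun n => √(‖x - a‖ ^ 2 + δ n ^ 2)) atTop (𝓝 ‖x - a‖) := by
        have h3 : Tendsto (fun n => ‖x - a‖ ^ 2 + δ n ^ 2) atTop (𝓝 (‖x - a‖ ^ 2 + 0 ^ 2)) :=
          (hδlim.pow 2).const_add _
        have h4 := (Real.continuous_sqrt.tendsto _).comp h3
        simpa [Function.comp_def, Real.sqrt_sq hxa'.le] using h4
      have h4 := (hx.const_mul 2).div h2 hxa'.ne'
      have h5 : 2 * (ρ x / ‖x - a‖) = 2 * ρ x / ‖x - a‖ := by ring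
      rw [h5]
      exact h4
  refine ⟨?_, fun t ht => ?_⟩
  · have h1 := (hmain 1 one_pos).1.const_mul (2⁻¹ : ℝ)
    refine h1.congr (ae_of_all _ fun x => ?_)
    show (2:ℝ)⁻¹ * (2 * (ρ x / ‖x - a‖)) = _
    ring
  · have h1 := (hmain t ht).2
    rwa [integral_const_mul] at h1

end Pool.Agent.Y24.TF
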