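import Mathlib
import Pool.Agent.Y24.TF.Coul

set_option autoImplicit false

open MeasureTheory Filter Topology Set
open scoped ENNReal NNReal ContDiff

namespace Pool.Agent.Y24.TF

open Pool.Agent.Helper149.TFDW

/-- the integrand `J` -/
noncomputable def Jf (γ Ce p : ℝ) (ρ : ℝ) : ℝ :=
  γ / p * ρ ^ p - 3 * Ce / 4 * ρ ^ ((4 : ℝ) / 3)

lemma integral_Jf {γ Ce p : ℝ} (hp : 4 / 3 < p) {ρ : R3 → ℝ} {g : R3 → R3}
    (h : Admissible p ρ g) :
    ∫ x, Jf γ Ce p (ρ x) = (∫ x, Jalpha γ Ce p (ρ x)) - alpha γ Ce p * ∫ x, ρ x := by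
  have hJα := integrable_Jalpha (γ := γ) (Ce := Ce) hp h.nonneg h.integrable h.integrable_rpow
  have e1 : ∫ x, Jf γ Ce p (ρ x)
      = ∫ x, (γ / p * ρ x ^ p - 3 * Ce / 4 * ρ x ^ ((4:ℝ)/3)) := rfl
  rw [e1, integral_sub (h.integrable_rpow.const_mul _) (hJα.1.const_mul _),
    integral_const_mul, integral_const_mul, hJα.2.2]
  ring

/-- crude lower bound -/
lemma crude {A γ Ce p : ℝ} (hA : 0 < A) (hγ : 0 < γ) (hCe : 0 < Ce) (hp : 4 / 3 < p)
    {ρ : R3 → ℝ} {g : R3 → R3} (h : Admissible p ρ g) :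
    -(alpha γ Ce p * ∫ x, ρ x) ≤ A * (∫ x, ‖g x‖ ^ 2) + ∫ x, Jf γ Ce p (ρ x) := by
  rw [integral_Jf hp h]
  have h1 : 0 ≤ ∫ x, ‖g x‖ ^ 2 := integral_nonneg fun x => by positivity
  have h2 : 0 ≤ ∫ x, Jalpha γ Ce p (ρ x) :=
    integral_nonneg fun x => Jalpha_nonneg hγ hCe hp (h.nonneg x)
  have h3 := mul_nonneg hA.le h1
  linarith

/-- For small mass the exchange term is dominated: `A∫|∇√ρ|² + ∫J(ρ) ≥ -η∫ρ`. -/
lemma small_mass {A γ Ce p : ℝ} (hA : 0 < A) (hγ : 0 < γ) (hCe : 0 < Ce) (hp : 4 / 3 < p)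
    {η : ℝ} (hη : 0 < η) :
    ∃ m₀ : ℝ, 0 < m₀ ∧ ∀ (ρ : R3 → ℝ) (g : R3 → R3), Admissible p ρ g → ∫ x, ρ x ≤ m₀ →
      -(η * ∫ x, ρ x) ≤ A * (∫ x, ‖g x‖ ^ 2) + ∫ x, Jf γ Ce p (ρ x) := by
  have hα := alpha_pos hγ hCe hp
  set α := alpha γ Ce p with hαdef
  set θ : ℝ := η / (2 * α) with hθ
  have hθ0 : 0 < θ := by positivity
  have hC₁ : 0 < (1 + θ) / α := by positivity
  obtain ⟨C₂, hC₂, hC⟩ := smooth_mass hA hγ hCe hp hC₁ (by
    rw [← hαdef]
    exact div_lt_div_of_pos_right (by linarith) hα)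
  set δ : ℝ := (θ / (α * (C₂ + 1))) ^ 2 with hδ
  have hδ0 : 0 < δ := by positivity
  refine ⟨δ / α, by positivity, ?_⟩
  intro ρ g h hm
  have h3 := mass_bound hA hγ hCe hp hC₁ hC₂ hC h
  have hm0 : 0 ≤ ∫ x, ρ x := integral_nonneg h.nonneg
  have h2 : 0 ≤ A * (∫ x, ‖g x‖ ^ 2) + ∫ x, Jalpha γ Ce p (ρ x) := by
    have h1 : 0 ≤ ∫ x, ‖g x‖ ^ 2 := integral_nonneg fun x => by positivity
    have h2 : 0 ≤ ∫ x, Jalpha γ Ce p (ρ x) :=
      integral_nonneg fun x => Jalpha_nonneg hγ hCe hp (h.nonneg x)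
    positivity
  have hJ := integral_Jf (γ := γ) (Ce := Ce) hp h
  rw [← hαdef] at hJ
  set X := A * (∫ x, ‖g x‖ ^ 2) + ∫ x, Jalpha γ Ce p (ρ x) with hX
  set m := ∫ x, ρ x with hmdef
  have hXlam : α * m ≤ (1 + 2 * θ) * X := by
    rcases le_total X δ with h5 | h5
    · have h6 : C₂ * X ^ ((3:ℝ)/2) ≤ θ / α * X := by
        have e1 : X ^ ((3:ℝ)/2) = X * √X := by
          rw [Real.sqrt_eq_rpow, ← Real.rpow_one_add' h2 (by norm_num)]
          norm_num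
        have e2 : √X ≤ θ / (α * (C₂ + 1)) := by
          have := Real.sqrt_le_sqrt h5
          rwa [hδ, Real.sqrt_sq (by positivity)] at this
        have e3 : C₂ * √X ≤ θ / α := by
          calc C₂ * √X ≤ (C₂ + 1) * (θ / (α * (C₂ + 1))) :=
                mul_le_mul (by linarith) e2 (Real.sqrt_nonneg _) (by positivity)
            _ = θ / α := by field_simp
        rw [e1]
        calc C₂ * (X * √X) = (C₂ * √X) * X := by ring
          _ ≤ _ := mul_le_mul_of_nonneg_right e3 h2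
      have h7 : m ≤ (1 + 2 * θ) / α * X := by
        calc m ≤ (1 + θ) / α * X + θ / α * X := by linarith
          _ = (1 + 2 * θ) / α * X := by ring
      calc α * m ≤ α * ((1 + 2 * θ) / α * X) := mul_le_mul_of_nonneg_left h7 hα.le
        _ = (1 + 2 * θ) * X := by field_simp
    · have h6 : α * m ≤ δ := by
        have := mul_le_mul_of_nonneg_left hm hα.le
        rwa [mul_div_cancel₀ _ hα.ne'] at this
      nlinarith
  have h9 : α * m / (1 + 2 * θ) ≤ X := by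
    rw [div_le_iff₀ (by positivity)]; linarith
  have h11 : α * m * (1 - 2 * θ) ≤ α * m / (1 + 2 * θ) := by
    rw [le_div_iff₀ (by positivity)]
    have : α * m * (1 - 2 * θ) * (1 + 2 * θ) = α * m * (1 - 4 * θ ^ 2) := by ring
    rw [this]
    have h12 : 0 ≤ α * m := by positivity
    nlinarith [mul_nonneg h12 (sq_nonneg θ)]
  have h13 : α * (2 * θ) = η := by rw [hθ]; field_simp
  have h14 : α * m * (1 - 2 * θ) = α * m - η * m := by
    rw [← h13]; ring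
  rw [hJ]
  have h15 : A * (∫ x, ‖g x‖ ^ 2) + ((∫ x, Jalpha γ Ce p (ρ x)) - α * m) = X - α * m := by
    rw [hX]; ring
  rw [h15]
  linarith

end Pool.Agent.Y24.TF
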